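import Mathlib

/-!
MP_ee74d2_an, theorem KT: numerical part of the row CBK.
-/

set_option autoImplicit false

namespace Pool.Agent.H79.KT

/-- products of the constants -/
theorem cbk_num (m : ℕ) (CS C₁ C₂ g A a e ρ H E W μ : ℝ) (hCS : 1 ≤ CS) (hC₁ : 1 ≤ C₁)
    (hC₂ : 1 ≤ C₂) (hg : 20 ≤ g)
    (hA : A = 2 + g + CS + 192 * C₁ * g ^ 2 + 432 * CS ^ 2 * g ^ 5 + C₂ * C₁)
    (ha : 1 ≤ a) (ha2 : a ≤ ρ ^ 2) (he : 1 ≤ e) (he2 : e ≤ ρ) (hH : H = CS * a ^ (m + 2))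
    (hE : E = C₁ * a) (hW : W = g * e) (hμ : μ = (C₂ * E) ^ m * (C₂ * E * a) ^ (m + 2)) :
    2 ^ 56 * H ^ 24 * (32 * (E + 5) * W ^ 2) ^ (m + 1) * μ ^ 3 * W ^ (2 * m) *
      (432 * H ^ 2 * W ^ 5) ^ m * W ^ 12 * g ^ (2 * m + 24) ≤
        A ^ (12 * m + 123) * ρ ^ ((4 * m + 13) * (12 * m + 123)) ∧
    432 * H ^ 2 * W ^ 6 * g ≤ A ^ (12 * m + 123) * ρ ^ ((4 * m + 13) * (12 * m + 123)) := by
  have hρ1 : 1 ≤ ρ := he.trans he2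
  have hρ0 : 0 < ρ := by linarith
  have hg0 : 0 < g := by linarith
  have hCS0 : 0 < CS := by linarith
  have hC₁0 : 0 < C₁ := by linarith
  have hC₂0 : 0 < C₂ := by linarith
  have ha0 : 0 < a := by linarith
  have he0 : 0 < e := by linarith
  have p1 : 0 < 192 * C₁ * g ^ 2 := by positivity
  have p2 : 0 < 432 * CS ^ 2 * g ^ 5 := by positivity
  have p3 : 0 < C₂ * C₁ := by positivity
  have hA1 : 1 ≤ A := by rw [hA]; linarith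
  have hA0 : 0 < A := by linarith
  obtain ⟨P, hP⟩ : ∃ P : ℝ, P = ρ ^ (4 * m + 13) := ⟨_, rfl⟩
  obtain ⟨Q, hQ⟩ : ∃ Q : ℝ, Q = A * P := ⟨_, rfl⟩
  have hpw : ∀ n : ℕ, n ≤ 4 * m + 13 → ρ ^ n ≤ P := fun n hn => by
    rw [hP]
    exact pow_le_pow_right₀ hρ1 hn
  have hP1 : 1 ≤ P := by
    rw [hP]
    exact one_le_pow₀ hρ1
  have hQ1 : 1 ≤ Q := by
    rw [hQ]
    exact one_le_mul_of_one_le_of_one_le hA1 hP1
  have hQ0 : 0 < Q := by linarith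
  have base : ∀ c x : ℝ, c ≤ A → x ≤ P → 0 ≤ x → c * x ≤ Q := fun c x h1 h2 h3 => by
    rw [hQ]
    exact mul_le_mul h1 h2 h3 hA0.le
  have hE1 : 1 ≤ E := by
    rw [hE]
    exact one_le_mul_of_one_le_of_one_le hC₁ ha
  have hE0 : 0 < E := by linarith
  have hW0 : 0 < W := by
    rw [hW]
    positivity
  have hH0 : 0 < H := by
    rw [hH]
    positivity
  have b2 : (2 : ℝ) ≤ Q := by
    have := base 2 1 (by rw [hA]; linarith) hP1 (by norm_num)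
    linarith
  have bg : g ≤ Q := by
    have := base g 1 (by rw [hA]; linarith) hP1 (by norm_num)
    linarith
  have hai : ∀ n : ℕ, a ^ n ≤ ρ ^ (2 * n) := fun n => by
    rw [pow_mul]
    exact pow_le_pow_left₀ ha0.le ha2 n
  have bH : H ≤ Q := by
    rw [hH]
    exact base CS _ (by rw [hA]; linarith) ((hai (m + 2)).trans (hpw _ (by omega)))
      (by positivity)
  have bW : W ≤ Q := by
    rw [hW]
    refine base g _ (by rw [hA]; linarith) (he2.trans ?_) he0.le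
    have := hpw 1 (by omega)
    rwa [pow_one] at this
  have bB1 : 32 * (E + 5) * W ^ 2 ≤ Q := by
    have h1 : 32 * (E + 5) * W ^ 2 ≤ 32 * (6 * E) * W ^ 2 := by
      refine mul_le_mul_of_nonneg_right ?_ (by positivity)
      linarith
    refine h1.trans ?_
    have h2 : 32 * (6 * E) * W ^ 2 = 192 * C₁ * g ^ 2 * (a * e ^ 2) := by
      rw [hE, hW]
      ring
    rw [h2]
    refine base _ _ (by rw [hA]; linarith) ?_ (by positivity)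
    have h3 : a * e ^ 2 ≤ ρ ^ 2 * ρ ^ 2 :=
      mul_le_mul ha2 (pow_le_pow_left₀ he0.le he2 2) (by positivity) (by positivity)
    refine h3.trans ?_
    rw [← pow_add]
    exact hpw _ (by omega)
  have bB2 : 432 * H ^ 2 * W ^ 5 ≤ Q := by
    have h2 : 432 * H ^ 2 * W ^ 5 = 432 * CS ^ 2 * g ^ 5 * (a ^ (2 * (m + 2)) * e ^ 5) := by
      rw [hH, hW, mul_comm 2 (m + 2), pow_mul]
      ring
    rw [h2]
    refine base _ _ (by rw [hA]; linarith) ?_ (by positivity)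
    have h3 : a ^ (2 * (m + 2)) * e ^ 5 ≤ ρ ^ (2 * (2 * (m + 2))) * ρ ^ 5 :=
      mul_le_mul (hai _) (pow_le_pow_left₀ he0.le he2 5) (by positivity) (by positivity)
    refine h3.trans ?_
    rw [← pow_add]
    exact hpw _ (by omega)
  have bC : C₂ * E ≤ Q := by
    have h2 : C₂ * E = C₂ * C₁ * a := by
      rw [hE]
      ring
    rw [h2]
    exact base _ _ (by rw [hA]; linarith) (ha2.trans (hpw 2 (by omega))) ha0.le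
  have bD : C₂ * E * a ≤ Q := by
    have h2 : C₂ * E * a = C₂ * C₁ * a ^ 2 := by
      rw [hE]
      ring
    rw [h2]
    exact base _ _ (by rw [hA]; linarith) ((hai 2).trans (hpw _ (by omega))) (by positivity)
  have hμ0 : 0 ≤ μ := by
    rw [hμ]
    positivity
  have bμ : μ ≤ Q ^ (2 * m + 2) := by
    rw [hμ]
    have h1 : (C₂ * E) ^ m ≤ Q ^ m := pow_le_pow_left₀ (by positivity) bC m
    have h2 : (C₂ * E * a) ^ (m + 2) ≤ Q ^ (m + 2) := pow_le_pow_left₀ (by positivity) bD _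
    refine (mul_le_mul h1 h2 (by positivity) (by positivity)).trans (le_of_eq ?_)
    rw [← pow_add]
    congr 1
    omega
  have fin : Q ^ (12 * m + 123) = A ^ (12 * m + 123) * ρ ^ ((4 * m + 13) * (12 * m + 123)) := by
    rw [hQ, mul_pow, hP, ← pow_mul]
  rw [← fin]
  obtain ⟨B1, hB1⟩ : ∃ B1 : ℝ, B1 = 32 * (E + 5) * W ^ 2 := ⟨_, rfl⟩
  obtain ⟨B2, hB2⟩ : ∃ B2 : ℝ, B2 = 432 * H ^ 2 * W ^ 5 := ⟨_, rfl⟩
  have hB10 : 0 ≤ B1 := by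
    rw [hB1]
    positivity
  have hB20 : 0 ≤ B2 := by
    rw [hB2]
    positivity
  constructor
  · rw [← hB1] at bB1 ⊢
    rw [← hB2] at bB2 ⊢
    have q : ∀ (x : ℝ) (n : ℕ), 0 ≤ x → x ≤ Q → x ^ n ≤ Q ^ n := fun x n h0 h =>
      pow_le_pow_left₀ h0 h n
    have mm : ∀ {x y u v : ℝ}, 0 ≤ y → 0 ≤ u → x ≤ u → y ≤ v → x * y ≤ u * v :=
      fun hy hu h1 h2 => mul_le_mul h1 h2 hy hu
    have s1 : (2 : ℝ) ^ 56 * H ^ 24 ≤ Q ^ 56 * Q ^ 24 :=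
      mm (by positivity) (by positivity) (q 2 56 (by norm_num) b2) (q H 24 hH0.le bH)
    have s2 : (2 : ℝ) ^ 56 * H ^ 24 * B1 ^ (m + 1) ≤ Q ^ 56 * Q ^ 24 * Q ^ (m + 1) :=
      mm (by positivity) (by positivity) s1 (q B1 _ hB10 bB1)
    have s3 : (2 : ℝ) ^ 56 * H ^ 24 * B1 ^ (m + 1) * μ ^ 3 ≤
        Q ^ 56 * Q ^ 24 * Q ^ (m + 1) * (Q ^ (2 * m + 2)) ^ 3 :=
      mm (by positivity) (by positivity) s2 (pow_le_pow_left₀ hμ0 bμ 3)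
    have s4 : (2 : ℝ) ^ 56 * H ^ 24 * B1 ^ (m + 1) * μ ^ 3 * W ^ (2 * m) ≤
        Q ^ 56 * Q ^ 24 * Q ^ (m + 1) * (Q ^ (2 * m + 2)) ^ 3 * Q ^ (2 * m) :=
      mm (by positivity) (by positivity) s3 (q W _ hW0.le bW)
    have s5 : (2 : ℝ) ^ 56 * H ^ 24 * B1 ^ (m + 1) * μ ^ 3 * W ^ (2 * m) * B2 ^ m ≤
        Q ^ 56 * Q ^ 24 * Q ^ (m + 1) * (Q ^ (2 * m + 2)) ^ 3 * Q ^ (2 * m) * Q ^ m :=
      mm (by positivity) (by positivity) s4 (q B2 _ hB20 bB2)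
    have s6 : (2 : ℝ) ^ 56 * H ^ 24 * B1 ^ (m + 1) * μ ^ 3 * W ^ (2 * m) * B2 ^ m * W ^ 12 ≤
        Q ^ 56 * Q ^ 24 * Q ^ (m + 1) * (Q ^ (2 * m + 2)) ^ 3 * Q ^ (2 * m) * Q ^ m * Q ^ 12 :=
      mm (by positivity) (by positivity) s5 (q W _ hW0.le bW)
    have s7 : (2 : ℝ) ^ 56 * H ^ 24 * B1 ^ (m + 1) * μ ^ 3 * W ^ (2 * m) * B2 ^ m * W ^ 12 *
        g ^ (2 * m + 24) ≤ Q ^ 56 * Q ^ 24 * Q ^ (m + 1) * (Q ^ (2 * m + 2)) ^ 3 * Q ^ (2 * m) *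
        Q ^ m * Q ^ 12 * Q ^ (2 * m + 24) :=
      mm (by positivity) (by positivity) s6 (q g _ hg0.le bg)
    refine s7.trans (le_of_eq ?_)
    rw [← pow_mul, ← pow_add, ← pow_add, ← pow_add, ← pow_add, ← pow_add, ← pow_add, ← pow_add]
    congr 1
    omega
  · have h1 : 432 * H ^ 2 * W ^ 6 * g = 432 * H ^ 2 * W ^ 5 * W * g := by ring
    rw [h1]
    have h2 : 432 * H ^ 2 * W ^ 5 * W * g ≤ Q * Q * Q := by
      rw [← hB2] at bB2 ⊢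
      exact mul_le_mul (mul_le_mul bB2 bW hW0.le hQ0.le) bg hg0.le (by positivity)
    have h3 : Q * Q * Q = Q ^ 3 := by ring
    rw [h3] at h2
    exact h2.trans (pow_le_pow_right₀ hQ1 (by omega))

/-- the last step -/
theorem cbk_fin (m : ℕ) (X κ kt g W H E μ f Θ M : ℝ) (hκ : 0 < κ) (hg : 0 < g)
    (hW : 0 < W) (hkt : kt = g * κ) (hΘ : 0 ≤ Θ) (hf : 0 ≤ f)
    (h : X * ((1 / W) ^ 12 * κ ^ 24) ≤ 2 ^ 56 * H ^ 24 * ((32 * (E + 5) / (1 / W) ^ 2) ^ (m + 1) *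
      f * μ ^ 3 * (1 / (1 / W)) ^ (2 * m) * (432 * H ^ 2 / ((1 / W) ^ 5 * κ ^ 2)) ^ m) * Θ ^ 7)
    (hM : 2 ^ 56 * H ^ 24 * (32 * (E + 5) * W ^ 2) ^ (m + 1) * μ ^ 3 * W ^ (2 * m) *
      (432 * H ^ 2 * W ^ 5) ^ m * W ^ 12 * g ^ (2 * m + 24) ≤ M) :
    X * kt ^ (2 * m + 24) ≤ M * (Θ ^ 7 * f) := by
  have hW12 : (1 / W) ^ 12 * W ^ 12 = 1 := by
    rw [← mul_pow, one_div_mul_cancel hW.ne', one_pow]
  have e1 : X * kt ^ (2 * m + 24) =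
      (X * ((1 / W) ^ 12 * κ ^ 24)) * (W ^ 12 * g ^ (2 * m + 24) * κ ^ (2 * m)) := by
    obtain ⟨U, hU⟩ : ∃ U : ℝ, U = (1 / W) ^ 12 := ⟨_, rfl⟩
    rw [← hU] at hW12 ⊢
    rw [hkt, mul_pow, pow_add κ (2 * m) 24]
    calc X * (g ^ (2 * m + 24) * (κ ^ (2 * m) * κ ^ 24)) =
        X * (g ^ (2 * m + 24) * (κ ^ (2 * m) * κ ^ 24)) * 1 := by ring
      _ = X * (g ^ (2 * m + 24) * (κ ^ (2 * m) * κ ^ 24)) * (U * W ^ 12) := by rw [hW12]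
      _ = (X * (U * κ ^ 24)) * (W ^ 12 * g ^ (2 * m + 24) * κ ^ (2 * m)) := by ring
  rw [e1]
  refine (mul_le_mul_of_nonneg_right h (by positivity)).trans ?_
  have e2 : 32 * (E + 5) / (1 / W) ^ 2 = 32 * (E + 5) * W ^ 2 := by field_simp
  have e3 : 1 / (1 / W) = W := one_div_one_div W
  have e4 : (432 * H ^ 2 / ((1 / W) ^ 5 * κ ^ 2)) ^ m * κ ^ (2 * m) =
      (432 * H ^ 2 * W ^ 5) ^ m := by
    rw [pow_mul κ 2 m, ← mul_pow]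
    congr 1
    field_simp
  rw [e2, e3]
  obtain ⟨Z, hZ⟩ : ∃ Z : ℝ, Z = 432 * H ^ 2 / ((1 / W) ^ 5 * κ ^ 2) := ⟨_, rfl⟩
  rw [← hZ] at e4 ⊢
  obtain ⟨B1, hB1⟩ : ∃ B1 : ℝ, B1 = 32 * (E + 5) * W ^ 2 := ⟨_, rfl⟩
  rw [← hB1] at hM ⊢
  calc 2 ^ 56 * H ^ 24 * (B1 ^ (m + 1) * f * μ ^ 3 * W ^ (2 * m) * Z ^ m) * Θ ^ 7 *
      (W ^ 12 * g ^ (2 * m + 24) * κ ^ (2 * m)) =
      (2 ^ 56 * H ^ 24 * B1 ^ (m + 1) * μ ^ 3 * W ^ (2 * m) * (Z ^ m * κ ^ (2 * m)) * W ^ 12 *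
        g ^ (2 * m + 24)) * (Θ ^ 7 * f) := by ring
    _ = (2 ^ 56 * H ^ 24 * B1 ^ (m + 1) * μ ^ 3 * W ^ (2 * m) * (432 * H ^ 2 * W ^ 5) ^ m *
        W ^ 12 * g ^ (2 * m + 24)) * (Θ ^ 7 * f) := by rw [e4]
    _ ≤ M * (Θ ^ 7 * f) := mul_le_mul_of_nonneg_right hM (by positivity)

end Pool.Agent.H79.KT
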