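import Pool.Agent.H82.KT.TR
import Pool.Agent.H82.KT.TC
import Pool.Agent.H81.HDS.Lib
import Pool.Agent.H79.KT.CBKN

/-!
MP_ee74d2_an, theorem KT: two-ends shadings, few tubes with a common back projection (CBK).
-/

set_option autoImplicit false

namespace Pool.Agent.H79.KT

open Set
open Pool.Agent.H83.G Pool.Agent.H82.HD Pool.Agent.H82.KT Pool.Agent.H81.HDS
open Pool.Agent.H22.G (co)

/-- a coordinate is bounded by the norm -/
theorem vc_le {m : ℕ} (p : ℝ × Pool.Agent.H83.G.E m) (i : Fin (m + 1)) : |vc p i| ≤ ‖p‖ := by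
  unfold vc
  refine Fin.cases ?_ (fun j => ?_) i
  · rw [Fin.cons_zero, ← Real.norm_eq_abs]
    exact norm_fst_le p
  · rw [Fin.cons_succ, ← Real.norm_eq_abs]
    exact (PiLp.norm_apply_le p.2 j).trans (norm_snd_le p)

/-- CBK -/
theorem pf_CBK (hKTM : T_KTM) (hSHW : T_SHW) (hPRJ : T_PRJ) (hPRM : T_PRM) (hBPG : T_BPG) :
    T_CBK := by
  classical
  intro m hm
  obtain ⟨CS, hCS, hshw⟩ := hSHW m
  obtain ⟨C₁, hC₁, hprj⟩ := hPRJ m
  obtain ⟨C₂, hC₂, hprm⟩ := hPRM m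
  obtain ⟨-, -, -, hbp, -⟩ := hBPG m
  have hm0 : (0 : ℝ) ≤ m := Nat.cast_nonneg m
  obtain ⟨g, hg⟩ : ∃ g : ℝ, g = 20 * ((m : ℝ) + 2) := ⟨_, rfl⟩
  have hg20 : 20 ≤ g := by rw [hg]; linarith
  have hgm : (m : ℝ) + 1 ≤ g := by rw [hg]; linarith
  have hg0 : 0 < g := by linarith
  obtain ⟨A, hA⟩ : ∃ A : ℝ, A = 2 + g + CS + 192 * C₁ * g ^ 2 + 432 * CS ^ 2 * g ^ 5 + C₂ * C₁ :=
    ⟨_, rfl⟩
  have p1 : 0 < 192 * C₁ * g ^ 2 := by positivity
  have p2 : 0 < 432 * CS ^ 2 * g ^ 5 := by positivity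
  have p3 : 0 < C₂ * C₁ := by positivity
  have hA1 : 1 ≤ A := by rw [hA]; linarith
  have hCSA : CS ≤ A := by rw [hA]; linarith
  obtain ⟨C, hC⟩ : ∃ C : ℝ, C = A ^ (12 * m + 123) := ⟨_, rfl⟩
  have hAC : A ≤ C := by
    rw [hC]
    exact le_self_pow₀ hA1 (by omega)
  refine ⟨C, hA1.trans hAC, ?_⟩
  intro R T δ ε₀ f z₀ TT QQ l k hR hδ hε hde hT ht1 ht2 hk hTT hQQ hbig hf
  have hR0 : 0 < R := by linarith
  have hsr0 : 0 < Real.sqrt R := Real.sqrt_pos.2 hR0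
  have hsr1 : 1 ≤ Real.sqrt R := by
    rw [← Real.sqrt_one]
    exact Real.sqrt_le_sqrt hR
  have hT0 : 0 < T := lt_of_lt_of_le (by positivity) hT
  have hf0 : 0 ≤ f := by
    have := hf 0 ∅ (Finset.empty_subset _) (fun Tu hTu => absurd hTu (Finset.notMem_empty _))
    rwa [Finset.card_empty, Nat.cast_zero] at this
  have hC0 : 0 < C := by linarith
  rcases TT.eq_empty_or_nonempty with hTe | hTne
  · rw [hTe, Finset.card_empty, Nat.cast_zero, zero_pow (by norm_num), zero_mul]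
    have : 0 ≤ R ^ (lb m * (δ + ε₀)) := (Real.rpow_pos_of_pos hR0 _).le
    positivity
  -- a cube on every tube
  have hq : ∀ Tu ∈ TT, ∃ q, q ∈ QQ ∧ Inc R δ Tu q := by
    intro Tu hTu
    obtain ⟨B, hB⟩ := (hTT Tu hTu).2
    have h1 : 0 < mu QQ R (R ^ (1 - ε₀)) δ Tu B := lt_of_lt_of_le (by positivity) hB.1
    unfold mu at h1
    obtain ⟨q, hq⟩ := Finset.card_pos.1 h1
    rw [Finset.mem_filter] at hq
    exact ⟨q, hq.1, hq.2.2⟩
  choose! qT hqT using hq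
  have hQne : (0 : ℝ) < QQ.card := by
    obtain ⟨Tu, hTu⟩ := hTne
    have : 0 < QQ.card := Finset.card_pos.2 ⟨qT Tu, (hqT Tu hTu).1⟩
    exact_mod_cast this
  obtain ⟨P1, P2⟩ := hprj R T δ z₀ hR hδ hT ht1 ht2
  -- numbers
  obtain ⟨ρ, hρ⟩ : ∃ ρ : ℝ, ρ = R ^ (δ + ε₀) := ⟨_, rfl⟩
  obtain ⟨a, ha⟩ : ∃ a : ℝ, a = R ^ (2 * δ) := ⟨_, rfl⟩
  obtain ⟨e, he⟩ : ∃ e : ℝ, e = R ^ ε₀ := ⟨_, rfl⟩
  have ha1 : 1 ≤ a := by
    rw [ha]
    exact Real.one_le_rpow hR (by linarith)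
  have he1 : 1 ≤ e := by
    rw [he]
    exact Real.one_le_rpow hR hε
  have ha2 : a ≤ ρ ^ 2 := by
    rw [ha, hρ, ← Real.rpow_natCast (R ^ (δ + ε₀)) 2, ← Real.rpow_mul hR0.le]
    refine Real.rpow_le_rpow_of_exponent_le hR ?_
    push_cast
    linarith
  have he2 : e ≤ ρ := by
    rw [he, hρ]
    exact Real.rpow_le_rpow_of_exponent_le hR (by linarith)
  obtain ⟨H, hH⟩ : ∃ H : ℝ, H = CS * a ^ (m + 2) := ⟨_, rfl⟩
  obtain ⟨E, hE⟩ : ∃ E : ℝ, E = C₁ * a := ⟨_, rfl⟩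
  obtain ⟨W, hW⟩ : ∃ W : ℝ, W = g * e := ⟨_, rfl⟩
  obtain ⟨μ, hμ⟩ : ∃ μ : ℝ, μ = (C₂ * E) ^ m * (C₂ * E * a) ^ (m + 2) := ⟨_, rfl⟩
  obtain ⟨num1, num2⟩ := cbk_num m CS C₁ C₂ g A a e ρ H E W μ hCS hC₁ hC₂ hg20 hA ha1 ha2 he1 he2
    hH hE hW hμ
  have hlb : A ^ (12 * m + 123) * ρ ^ ((4 * m + 13) * (12 * m + 123)) ≤
      C * R ^ (lb m * (δ + ε₀)) := by
    rw [← hC]
    refine mul_le_mul_of_nonneg_left ?_ hC0.le
    rw [hρ, ← Real.rpow_natCast, ← Real.rpow_mul hR0.le]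
    refine Real.rpow_le_rpow_of_exponent_le hR ?_
    rw [mul_comm]
    refine mul_le_mul_of_nonneg_right ?_ (by linarith)
    unfold lb
    push_cast
    nlinarith
  have hH' : CS * R ^ (2 * ((m : ℝ) + 2) * δ) = H := by
    rw [hH, ha, ← Real.rpow_natCast (R ^ (2 * δ)) (m + 2), ← Real.rpow_mul hR0.le]
    congr 2
    push_cast
    ring
  have hH1 : 1 ≤ H := by
    rw [hH]
    exact one_le_mul_of_one_le_of_one_le hCS (one_le_pow₀ ha1)
  have hE1 : 1 ≤ E := by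
    rw [hE]
    exact one_le_mul_of_one_le_of_one_le hC₁ ha1
  have hW1 : 1 ≤ W := by
    rw [hW]
    exact one_le_mul_of_one_le_of_one_le (by linarith) he1
  have hW0 : 0 < W := by linarith
  have hμ0 : 0 ≤ μ := by
    rw [hμ]
    positivity
  obtain ⟨J, hJ⟩ : ∃ J : ℝ, J = g * Real.sqrt R := ⟨_, rfl⟩
  have hJ1 : 1 ≤ J := by
    rw [hJ]
    exact one_le_mul_of_one_le_of_one_le (by linarith) hsr1
  obtain ⟨kt, hkt⟩ : ∃ kt : ℝ, kt = (2 : ℝ) ^ (l + k) / Real.sqrt R := ⟨_, rfl⟩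
  have hkt0 : 0 < kt := by
    rw [hkt]
    positivity
  obtain ⟨κ, hκ⟩ : ∃ κ : ℝ, κ = kt / g := ⟨_, rfl⟩
  have hκ0 : 0 < κ := by
    rw [hκ]
    positivity
  have hκJ : κ * J = (2 : ℝ) ^ (l + k) := by
    rw [hκ, hJ, hkt]
    field_simp
  have hωJ : 1 / W * J = Real.sqrt R * R ^ (-ε₀) := by
    rw [hW, hJ, Real.rpow_neg hR0.le, ← he]
    field_simp
  obtain ⟨Θ, hΘ⟩ : ∃ Θ : ℝ, Θ = (QQ.card : ℝ) / Real.sqrt R := ⟨_, rfl⟩
  have hΘ0 : 0 < Θ := by
    rw [hΘ]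
    positivity
  -- the objects
  obtain ⟨X0, hX0⟩ : ∃ X0 : Pk m → ℝ × Pool.Agent.H83.G.E m, X0 = fun Tu =>
    bp (ctr (sR R) Tu.1) (co R (qT Tu)) - (z₀.1, z₀.2.1) := ⟨_, rfl⟩
  obtain ⟨P, hP⟩ : ∃ P : Pk m → Fin (m + 1) → ℝ, P = fun Tu i =>
    T / Real.sqrt R * vc (wv (ctr (sR R) Tu.1)) i := ⟨_, rfl⟩
  obtain ⟨V, hV⟩ : ∃ V : Pk m → Fin (m + 1) → ℝ, V = fun Tu i => T⁻¹ * vc (X0 Tu) i := ⟨_, rfl⟩
  obtain ⟨I, hI⟩ : ∃ I : Finset ℤ, I = QQ.image (uq R T) := ⟨_, rfl⟩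
  obtain ⟨Y, hY⟩ : ∃ Y : ℤ → Finset (Fin (m + 1) → ℤ), Y = fun u =>
    (QQ.filter (fun q => uq R T q = u)).image (yq R T z₀) := ⟨_, rfl⟩
  have hIm : ∀ u ∈ I, ∃ q ∈ QQ, uq R T q = u := by
    intro u hu
    rw [hI, Finset.mem_image] at hu
    exact hu
  have hIJ : ∀ u ∈ I, ∀ v ∈ I, |((u : ℝ) - v)| ≤ J := by
    intro u hu v hv
    obtain ⟨q, hq, rfl⟩ := hIm u hu
    obtain ⟨q', hq', rfl⟩ := hIm v hv
    have h1 := (P2 q q' (hQQ q hq) (hQQ q' hq')).1
    rw [hJ, hg]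
    exact h1
  have hVb : ∀ Tu ∈ TT, ∀ i, |V Tu i| ≤ 5 := by
    intro Tu hTu i
    have hqq := hQQ _ (hqT Tu hTu).1
    have hP1 := P1 _ hqq
    have h1 : ‖X0 Tu‖ ≤ 5 * T := by
      have e1 : X0 Tu = ((co R (qT Tu) - z₀).1, (co R (qT Tu) - z₀).2.1) -
          tm (co R (qT Tu)) • wv (ctr (sR R) Tu.1) := by
        rw [hX0]
        change bp (ctr (sR R) Tu.1) (co R (qT Tu)) - (z₀.1, z₀.2.1) = _
        rw [(hbp (ctr (sR R) Tu.1) (co R (qT Tu))).1]
        have e2 : (((co R (qT Tu) - z₀).1, (co R (qT Tu) - z₀).2.1) :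
            ℝ × Pool.Agent.H83.G.E m) = ((co R (qT Tu)).1, (co R (qT Tu)).2.1) -
              (z₀.1, z₀.2.1) := rfl
        rw [e2]
        abel
      rw [e1]
      refine (norm_sub_le _ _).trans ?_
      have h2 : ‖(((co R (qT Tu) - z₀).1, (co R (qT Tu) - z₀).2.1) :
          ℝ × Pool.Agent.H83.G.E m)‖ ≤ ‖co R (qT Tu) - z₀‖ := by
        rw [Prod.norm_def, max_le_iff]
        exact ⟨norm_fst_le (co R (qT Tu) - z₀),
          (norm_fst_le (co R (qT Tu) - z₀).2).trans (norm_snd_le (co R (qT Tu) - z₀))⟩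
      have h3 : ‖tm (co R (qT Tu)) • wv (ctr (sR R) Tu.1)‖ ≤ 4 * T := by
        rw [norm_smul, Real.norm_eq_abs, abs_of_nonneg (by linarith [hP1.1])]
        have h4 := (hbp (ctr (sR R) Tu.1) (co R (qT Tu))).2
        calc tm (co R (qT Tu)) * ‖wv (ctr (sR R) Tu.1)‖ ≤ 4 * T * 1 :=
              mul_le_mul hP1.2.1 h4 (norm_nonneg _) (by linarith)
          _ = 4 * T := by ring
      have h5 : ((m : ℝ) + 2) * R ≤ T := by
        have : 0 ≤ ((m : ℝ) + 2) * R := by positivity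
        linarith
      linarith
    rw [hV]
    change |T⁻¹ * vc (X0 Tu) i| ≤ 5
    rw [abs_mul, abs_of_pos (inv_pos.2 hT0), inv_mul_le_iff₀ hT0, mul_comm]
    exact (vc_le _ i).trans h1
  have hNr : ∀ Tu ∈ TT, ∀ q ∈ QQ, Inc R δ Tu q →
      Nr E (P Tu) (V Tu) (uq R T q) (yq R T z₀ q) := by
    intro Tu hTu q hq hi i
    have h1 := ((P2 q (qT Tu) (hQQ q hq) (hQQ _ (hqT Tu hTu).1)).2 Tu (hTT Tu hTu).1 hi
      (hqT Tu hTu).2).1 i
    rw [hP, hV, hX0, hE, ha]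
    exact h1
  have hkey := hKTM (Fin (m + 1)) (Pk m) TT P V
    (fun Tu u => wg QQ R T δ ε₀ l k Tu u) I Y m J κ (1 / W) H E 5 Θ μ f hJ1 hκ0 (by positivity)
    (by rw [div_le_one hW0]; exact hW1) hH1 hE1 (by norm_num) hΘ0 hμ0 hf0
    (by
      have h1 : 432 * H ^ 2 * W ^ 6 * g ≤ kt ^ 2 * Real.sqrt R := by
        rw [hkt]
        exact num2.trans (hlb.trans hbig)
      have h2 : (1 / W) ^ 6 * κ ^ 2 * J = kt ^ 2 * Real.sqrt R / (W ^ 6 * g) := by
        rw [hκ, hJ]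
        field_simp
      rw [h2, le_div_iff₀ (by positivity)]
      calc 432 * H ^ 2 * (W ^ 6 * g) = 432 * H ^ 2 * W ^ 6 * g := by ring
        _ ≤ kt ^ 2 * Real.sqrt R := h1)
    hIJ
    (by
      have h1 : ∀ u ∈ I, ((Y u).card : ℝ) ≤ ((QQ.filter (fun q => uq R T q = u)).card : ℝ) := by
        intro u _
        rw [hY]
        exact_mod_cast Finset.card_image_le
      refine (Finset.sum_le_sum h1).trans ?_
      have h2 : ∑ u ∈ I, ((QQ.filter (fun q => uq R T q = u)).card : ℝ) = QQ.card := by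
        rw [hI]
        have := Finset.card_eq_sum_card_image (uq R T) QQ
        rw [this]
        push_cast
        rfl
      rw [h2, hJ, hΘ]
      have h3 : (QQ.card : ℝ) / Real.sqrt R * (g * Real.sqrt R) = QQ.card * g := by
        field_simp
      rw [h3]
      exact le_mul_of_one_le_right hQne.le (by linarith))
    (by
      intro Tu hTu
      obtain ⟨S1, S2, S3⟩ := hshw R T δ ε₀ z₀ Tu QQ l k hR hδ hε hde hT ht1 ht2 (hTT Tu hTu).1
        hQQ (hCSA.trans (hAC.trans hk)) (hTT Tu hTu).2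
      refine ⟨hVb Tu hTu, ?_, ?_, ?_⟩
      · intro u _
        refine ⟨(S1 u).1, ?_, ?_⟩
        · rw [← hH']
          exact (S1 u).2
        · intro hne
          have h1 : (QQ.filter (fun q => (Inc R δ Tu q ∧
              Sh QQ R (R ^ (1 - ε₀)) δ l k Tu (bl R (R ^ (1 - ε₀)) q)) ∧
              uq R T q = u)).Nonempty := by
            rw [Finset.nonempty_iff_ne_empty]
            intro h0
            apply hne
            change wg QQ R T δ ε₀ l k Tu u = 0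
            unfold wg
            have h2 : ((QQ.filter (fun q => (Inc R δ Tu q ∧
              Sh QQ R (R ^ (1 - ε₀)) δ l k Tu (bl R (R ^ (1 - ε₀)) q)) ∧
              uq R T q = u)).card : ℝ) = 0 := by
              rw [h0, Finset.card_empty, Nat.cast_zero]
            convert h2
          obtain ⟨q, hq⟩ := h1
          rw [Finset.mem_filter] at hq
          obtain ⟨hq1, ⟨hq2, -⟩, hq3⟩ := hq
          refine ⟨yq R T z₀ q, ?_, ?_⟩
          · rw [hY]
            exact Finset.mem_image_of_mem _ (Finset.mem_filter.2 ⟨hq1, hq3⟩)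
          · rw [← hq3]
            exact hNr Tu hTu q hq1 hq2
      · rw [hκJ, hI]
        exact S2
      · intro v _
        rw [hωJ, hI]
        exact S3 v)
    (by
      intro u hu v hv r hr huv y hy y' hy'
      obtain ⟨q, hq, rfl⟩ := hIm u hu
      have hr1 : r ≤ 1 := by
        have h1 := huv.trans (hIJ _ hu _ hv)
        have h2 : r * J ≤ 1 * J := by rwa [one_mul]
        exact le_of_mul_le_mul_right h2 (by linarith)
      have h1 := P1 q (hQQ q hq)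
      have key : ∀ F : Finset (Pk m), (∀ Tu ∈ F, Tu ∈ TT ∧
          (∀ i, |P Tu i + (uq R T q : ℝ) * V Tu i - y i| ≤ E) ∧
          ∀ i, |P Tu i + (v : ℝ) * V Tu i - y' i| ≤ E) → (F.card : ℝ) ≤ μ * (1 / r) ^ m := by
        intro F hF
        have h2 := hprm R T δ E r (uq R T q) v z₀ F qT (fun i => (y i : ℝ)) (fun i => (y' i : ℝ))
          hR hδ hT hE1 hr hr1 h1.2.2.1 h1.2.2.2 (by
            refine le_trans ?_ huv
            rw [hJ]
            refine mul_le_mul_of_nonneg_left ?_ hr.le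
            exact le_mul_of_one_le_left hsr0.le (by linarith)) (by
            intro Tu hTu
            obtain ⟨hTu1, hTu2, hTu3⟩ := hF Tu hTu
            rw [hP, hV, hX0] at hTu2 hTu3
            exact ⟨(hTT Tu hTu1).1, (hqT Tu hTu1).2, hQQ _ (hqT Tu hTu1).1, hTu2, hTu3⟩)
        refine h2.trans (le_of_eq ?_)
        rw [← ha, hμ, div_eq_mul_one_div (C₂ * E) r, mul_pow]
        ring
      exact key _ (fun Tu hTu => (@Finset.mem_filter _ _ (_) _ _).1 hTu))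
    (by
      intro w
      obtain ⟨F, hF⟩ : ∃ F : Finset (Pk m), F = TT.filter
        (fun x => (fun i => ⌊J * V x i⌋) = w) := ⟨_, rfl⟩
      have hgoal : (F.card : ℝ) ≤ f := by
        rcases F.eq_empty_or_nonempty with h0 | ⟨T₀, hT₀⟩
        · rw [h0, Finset.card_empty, Nat.cast_zero]
          exact hf0
        have hFs : F ⊆ TT := by
          rw [hF]
          exact Finset.filter_subset _ _
        refine hf (bp (ctr (sR R) T₀.1) (co R (qT T₀))) F hFs ?_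
        intro Tu hTu
        have hTu1 := hFs hTu
        refine ⟨qT Tu, (hqT Tu hTu1).1, (hqT Tu hTu1).2, ?_⟩
        have e0 : bp (ctr (sR R) Tu.1) (co R (qT Tu)) - bp (ctr (sR R) T₀.1) (co R (qT T₀)) =
            X0 Tu - X0 T₀ := by
          rw [hX0]
          simp only [sub_sub_sub_cancel_right]
        rw [e0]
        have hσ0 : 0 < T * sR R := by
          unfold sR
          positivity
        refine norm_le_vc _ _ hσ0.le fun i => ?_
        rw [vc_sub]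
        rw [hF, Finset.mem_filter] at hTu hT₀
        have e1 : ⌊J * V Tu i⌋ = ⌊J * V T₀ i⌋ := (congrFun hTu.2 i).trans (congrFun hT₀.2 i).symm
        have e2 := Int.abs_sub_lt_one_of_floor_eq_floor e1
        have e5 : J * V Tu i - J * V T₀ i = J * T⁻¹ * (vc (X0 Tu) i - vc (X0 T₀) i) := by
          rw [hV]
          ring
        rw [e5, abs_mul, abs_of_pos (by positivity)] at e2
        have e3 : |vc (X0 Tu) i - vc (X0 T₀) i| ≤ T / J := by
          rw [le_div_iff₀ (by linarith)]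
          have h4 : |vc (X0 Tu) i - vc (X0 T₀) i| * J =
              J * T⁻¹ * |vc (X0 Tu) i - vc (X0 T₀) i| * T := by
            field_simp
          rw [h4]
          calc J * T⁻¹ * |vc (X0 Tu) i - vc (X0 T₀) i| * T ≤ 1 * T :=
                mul_le_mul_of_nonneg_right e2.le hT0.le
            _ = T := one_mul T
        refine e3.trans ?_
        have e6 : T * sR R / ((m : ℝ) + 1) = T / (((m : ℝ) + 1) * Real.sqrt R) := by
          unfold sR
          field_simp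
        rw [e6, hJ]
        refine div_le_div_of_nonneg_left hT0.le (by positivity) ?_
        exact mul_le_mul_of_nonneg_right hgm hsr0.le
      rw [hF] at hgoal
      convert hgoal)
  rw [Fintype.card_fin] at hkey
  have hfin := cbk_fin m ((TT.card : ℝ) ^ 4) κ kt g W H E μ f Θ (C * R ^ (lb m * (δ + ε₀))) hκ0
    hg0 hW0 (by rw [hκ]; field_simp) hΘ0.le hf0 hkey (num1.trans hlb)
  rw [← hkt, ← hΘ]
  exact hfin

end Pool.Agent.H79.KT
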